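import Pool.Agent.Q132.CovFam
import Pool.Agent.Q132.Runs

/-! For every `k > 2` there is a cyclic sequence of length `k` in `ℤ / (4 k + 1)` whose entries and
consecutive sums are, up to sign, all nonzero residues, and whose sum is coprime to `4 k + 1`. -/

namespace Pool.Agent.Results.MP_a9ea17_co.CoveringSequences

open Pool.Agent.Q132.Walks Pool.Agent.Q132.CovSum

/-- Boolean check of the covering of `m`. -/
def chk (t : ℤ) (L : List ℤ) (m : ℤ) : Bool :=
  L.any (fun y => (y - m) % t == 0 || (y + m) % t == 0) ||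
    (L.zip L.tail).any (fun pq => (pq.1 + pq.2 - m) % t == 0 || (pq.1 + pq.2 + m) % t == 0)

theorem cov_of_chk {t : ℤ} {L : List ℤ} {m : ℤ} (h : chk t L m = true) : Cov t L m := by
  simp only [chk, Bool.or_eq_true, List.any_eq_true, beq_iff_eq] at h
  rcases h with ⟨y, hy, h | h⟩ | ⟨⟨p, q⟩, hpq, h | h⟩
  · obtain ⟨j, hj⟩ := Int.dvd_of_emod_eq_zero h
    exact Cov.el hy j (by linear_combination hj)
  · obtain ⟨j, hj⟩ := Int.dvd_of_emod_eq_zero h
    exact Cov.el' hy j (by linear_combination hj)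
  · obtain ⟨j, hj⟩ := Int.dvd_of_emod_eq_zero h
    exact Cov.su (CP_of_mem_zip hpq) j (by linear_combination hj)
  · obtain ⟨j, hj⟩ := Int.dvd_of_emod_eq_zero h
    exact Cov.su' (CP_of_mem_zip hpq) j (by linear_combination hj)

theorem good3 : Good 3 := by
  refine good_of_list 3 (by norm_num) [1, 2, 4, 1] 1 rfl rfl rfl ?_ 2 1 1 0 (by norm_num)
    (by norm_num)
  intro m h0 h1
  norm_num at h1 ⊢
  interval_cases m <;> exact cov_of_chk (by decide)

theorem good4 : Good 4 := by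
  refine good_of_list 4 (by norm_num) [1, 2, 6, 4, 1] 1 rfl rfl rfl ?_ 4 3 1 0 (by norm_num)
    (by norm_num)
  intro m h0 h1
  norm_num at h1 ⊢
  interval_cases m <;> exact cov_of_chk (by decide)

theorem good5 : Good 5 := by
  refine good_of_list 5 (by norm_num) [1, 2, 7, 6, 4, 1] 1 rfl rfl rfl ?_ 20 19 1 0 (by norm_num)
    (by norm_num)
  intro m h0 h1
  norm_num at h1 ⊢
  interval_cases m <;> exact cov_of_chk (by decide)

/-- For every `k > 2` there is a cyclic sequence `x 0, ..., x (k - 1)`, `x k = x 0`, in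
`ℤ / (4 k + 1)` such that the nonzero residues are exactly the residues `± x i` and
`± (x i + x (i + 1))`, `i < k`, and `gcd (x 0 + ... + x (k - 1), 4 k + 1) = 1`. -/
theorem result (k : ℕ) (hk : 2 < k) :
    ∃ x : ℕ → ZMod (4 * k + 1), x k = x 0 ∧
      {z : ZMod (4 * k + 1) | z ≠ 0} =
        ⋃ i ∈ Set.Iio k, {x i, -x i, x i + x (i + 1), -(x i + x (i + 1))} ∧
      Nat.gcd (∑ i ∈ Finset.range k, x i).val (4 * k + 1) = 1 := by
  show Good k
  rcases (by omega : k = 3 ∨ k = 4 ∨ k = 5 ∨ (7 ≤ k ∧ k = 2 * (k / 2) + 1) ∨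
    (8 ≤ k ∧ k = 4 * (k / 4)) ∨ (6 ≤ k ∧ k = 4 * (k / 4) + 2)) with
    rfl | rfl | rfl | ⟨h1, h2⟩ | ⟨h1, h2⟩ | ⟨h1, h2⟩
  · exact good3
  · exact good4
  · exact good5
  · rw [h2]; exact FamA.good (by omega)
  · rw [h2]; exact FamB.good (by omega)
  · rw [h2]; exact FamC.good (by omega)

end Pool.Agent.Results.MP_a9ea17_co.CoveringSequences
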